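import Mathlib
import Pool.Agent.H.MP_26251e_nt.A

set_option autoImplicit false

namespace Pool.Agent.Results.MP_26251e_nt.NoEq

open PowerSeries

/-- the coefficient of `x ^ n` in `(1 - x) ^ (-m)` times the product of the
`(1 - x ^ p ^ j) ^ (-(p - 1) m)` -/
noncomputable def d (p m n : ℕ) : ℤ :=
  coeff n ((PowerSeries.mk fun _ : ℕ => (1 : ℤ)) ^ m * ∏ i ∈ Finset.range (n + 1),
    (PowerSeries.mk fun j : ℕ => if p ^ i ∣ j then (1 : ℤ) else 0) ^ ((p - 1) * m))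

theorem result : ∃ p k : ℕ, p.Prime ∧ 3 ≤ p ∧ ∀ n : ℕ, 0 < n →
    ((padicValNat p n + (if p = 3 then 3 else 4) : ℕ) : ℕ∞) <
      emultiplicity (p : ℤ) (d p (p * k + (p - 1)) (p ^ 2 * n) - d p (p * k + (p - 1)) n) := by
  refine ⟨3, 2, Nat.prime_three, le_rfl, fun n _ => ?_⟩
  have e : (PowerSeries.mk fun _ : ℕ => (1 : ℤ)) = Pool.Agent.Lib.helper11.Mahler.geo ℤ 1 := by
    ext j
    simp [Pool.Agent.Lib.helper11.Mahler.geo]
  obtain ⟨a, ha⟩ : 3 ^ padicValNat 3 n ∣ n := pow_padicValNat_dvd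
  have h := Pool.Agent.H.MP_26251e_nt.main (padicValNat 3 n) a
  rw [← ha] at h
  refine lt_of_lt_of_le ?_ (le_emultiplicity_of_pow_dvd (k := padicValNat 3 n + 4) ?_)
  · exact_mod_cast Nat.lt_succ_self _
  · rw [d, d, e]
    exact h

end Pool.Agent.Results.MP_26251e_nt.NoEq
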